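import Pool.Agent.R349.LocalMulti
import Pool.Agent.Y549.GM.Loc

/-!
# Rohrlich's conjecture for products of `r` gamma values: a bounded number of exceptions in short intervals

Let `[a, b]` be an interval of positive numbers and let `Y_1, …, Y_r` be finite sets of rational numbers of `[a, b]` with
denominators at most `T`, each of them contained in an interval of length `T ^ (-δ)`; for instance one can fix any large
denominator `D = T` and take for the `Y_j` any sets of fractions with denominator `D` in such short intervals. For every complex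
number `β`, for instance `β = π ^ (r / 2)`, the number of the `r`-tuples `(x_1, …, x_r)` of `Y_1 × … × Y_r` for which
`Γ(x_1) ⋯ Γ(x_r) = α β` with an algebraic number `α` of degree at most `m` and height at most `T ^ A` is at most
`C ∑_j ∏_(i ≠ j) |Y_i|`. Here `C` depends only on `a`, `b`, `r`, `m`, `A`, `δ`. In particular, if each `Y_j` has more than `C`
elements there is a tuple for which the product is not such a multiple of `β`. For `r = 1`: at most `C` of the numbers
`Γ(k / D)` with `k / D` in an interval of length `D ^ (-δ)` are such multiples of `β`.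

Proof: determinants of Bombieri-Pila type, for relations with varying coefficients and arbitrary constants.
-/

set_option autoImplicit false

open NumberField

namespace Pool.Agent.Results.MP_c2409d_nt.EveryDenominator

/-- The complex number `α` is algebraic of degree at most `m` and height at most `H`: it is a root of a nonzero polynomial of
degree at most `m` whose coefficients are integers of absolute value at most `H`. -/
def AlgLe (m : ℕ) (H : ℝ) (α : ℂ) : Prop :=
  ∃ p : Polynomial ℤ, p ≠ 0 ∧ p.natDegree ≤ m ∧ (∀ i, |(p.coeff i : ℝ)| ≤ H) ∧ Polynomial.aeval α p = 0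

open Pool.Agent.R349

/-- the local independence of `t` and `Γ(t)` -/
lemma locInd_gamma (t0 : ℂ) (ht0 : 0 < t0.re) :
    Pool.Agent.Y124.LocInd (fun (_ : Unit) (t : ℂ) => Complex.Gamma t) t0 := by
  refine Pool.Agent.Y549.GM.locInd {t : ℂ | 0 < t.re} (isOpen_lt continuous_const Complex.continuous_re)
    (convex_halfSpace_re_gt 0).isPreconnected (fun (_ : Unit) (t : ℂ) => t) ?_ ?_ ?_ ?_ t0 ht0 ?_
  · intro _
    exact differentiable_id.differentiableOn
  · intro _
    refine ⟨Polynomial.X - Polynomial.C Polynomial.X, Polynomial.X_sub_C_ne_zero _, fun t _ => ?_⟩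
    simp [Polynomial.evalEval]
  · intro _ v h
    have h1 := h 1 (by simp)
    have h2 := h 2 (by simp)
    rw [← h1] at h2
    norm_num at h2
  · intro i k hik
    exact absurd (Subsingleton.elim i k) hik
  · intro _ m h
    have h1 := congrArg Complex.re h
    simp at h1
    have h2 : (0 : ℝ) ≤ m := Nat.cast_nonneg m
    linarith

section
variable {r : ℕ}

/-- the constant exponent -/
noncomputable def ek (r k : ℕ) : (Fin r × Unit) →₀ ℕ := Finsupp.equivFunOnFinite.symm fun _ => k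

/-- the relation polynomial -/
noncomputable def RQ (r m : ℕ) (c : ℕ → ℂ) : MvPolynomial (Fin r × Unit) ℂ :=
  ∑ k ∈ Finset.range (m + 1), MvPolynomial.monomial (ek r k) (c k)

lemma ek_iff (hr : 0 < r) (k : ℕ) (s : (Fin r × Unit) →₀ ℕ) :
    ek r k = s ↔ k = s (⟨0, hr⟩, ()) ∧ s = ek r (s (⟨0, hr⟩, ())) := by
  constructor
  · rintro rfl
    simp [ek]
  · rintro ⟨h1, h2⟩
    rw [h1]
    exact h2.symm

lemma RQ_coeff (hr : 0 < r) (m : ℕ) (c : ℕ → ℂ) (s : (Fin r × Unit) →₀ ℕ) [Decidable (s = ek r (s (⟨0, hr⟩, ())))] :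
    (RQ r m c).coeff s =
      if s = ek r (s (⟨0, hr⟩, ())) then (if s (⟨0, hr⟩, ()) < m + 1 then c (s (⟨0, hr⟩, ())) else 0) else 0 := by
  classical
  unfold RQ
  rw [MvPolynomial.coeff_sum]
  simp only [MvPolynomial.coeff_monomial, ek_iff hr]
  by_cases h : s = ek r (s (⟨0, hr⟩, ()))
  · rw [if_pos h]
    have h1 : ∀ k, (k = s (⟨0, hr⟩, ()) ∧ s = ek r (s (⟨0, hr⟩, ()))) ↔ k = s (⟨0, hr⟩, ()) :=
      fun k => ⟨fun h => h.1, fun h' => ⟨h', h⟩⟩
    simp only [h1]
    rw [Finset.sum_ite_eq' (Finset.range (m + 1)) (s (⟨0, hr⟩, ()))]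
    simp only [Finset.mem_range]
  · rw [if_neg h]
    exact Finset.sum_eq_zero fun k _ => if_neg fun h' => h h'.2

lemma RQ_degree (hr : 0 < r) (m : ℕ) (c : ℕ → ℂ) (u : Fin r × Unit) : (RQ r m c).degreeOf u ≤ m := by
  classical
  rw [MvPolynomial.degreeOf_le_iff]
  intro s hs
  rw [MvPolynomial.mem_support_iff, RQ_coeff hr] at hs
  by_cases h : s = ek r (s (⟨0, hr⟩, ()))
  · rw [if_pos h] at hs
    by_contra hlt
    apply hs
    rw [if_neg]
    intro h1
    apply hlt
    rw [h]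
    have : ek r (s (⟨0, hr⟩, ())) u = s (⟨0, hr⟩, ()) := by simp [ek]
    omega
  · rw [if_neg h] at hs
    exact absurd rfl hs

lemma RQ_eval (m : ℕ) (c : ℕ → ℂ) (v : Fin r × Unit → ℂ) :
    MvPolynomial.aeval v (RQ r m c) = ∑ k ∈ Finset.range (m + 1), c k * (∏ j, v (j, ())) ^ k := by
  unfold RQ
  rw [map_sum]
  refine Finset.sum_congr rfl fun k _ => ?_
  rw [MvPolynomial.aeval_monomial, Finsupp.prod_fintype _ _ (fun _ => pow_zero _), Fintype.prod_prod_type]
  simp only [ek, Finsupp.equivFunOnFinite_symm_apply_apply, Finset.univ_unique, Finset.prod_singleton,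
    Finset.prod_pow, Algebra.algebraMap_self, RingHom.id_apply]

end

lemma MgR_eq {α : Type} {n : ℕ} (X : Fin n → Finset α) :
    Pool.Agent.Y124.MgR X = ∑ j, ∏ i ∈ Finset.univ.erase j, ((X i).card : ℝ) := by
  unfold Pool.Agent.Y124.MgR
  refine Finset.sum_congr rfl fun j _ => ?_
  rw [← Finset.mul_prod_erase Finset.univ _ (Finset.mem_univ j), if_pos rfl, one_mul]
  exact Finset.prod_congr rfl fun i hi => if_neg (Finset.ne_of_mem_erase hi)

theorem result (r : ℕ) (hr : 0 < r) (a b : ℝ) (ha : 0 < a) (m : ℕ) (A δ : ℝ) (hδ : 0 < δ) :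
    ∃ (C : ℕ) (T₀ : ℝ), ∀ (β : ℂ) (T : ℝ), T₀ ≤ T → ∀ Y : Fin r → Finset ℚ,
      (∀ j, ∀ x ∈ Y j, a ≤ (x : ℝ) ∧ (x : ℝ) ≤ b ∧ (x.den : ℝ) ≤ T) →
      (∀ j, ∀ x ∈ Y j, ∀ y ∈ Y j, |(x : ℝ) - y| ≤ T ^ (-δ)) →
        (({x : Fin r → ℚ | (∀ j, x j ∈ Y j) ∧
          ∃ α : ℂ, AlgLe m (T ^ A) α ∧ ∏ j, Complex.Gamma (x j) = α * β}.ncard : ℝ) ≤
          C * ∑ j, ∏ i ∈ Finset.univ.erase j, ((Y i).card : ℝ)) ∧
        ((∀ j, C < (Y j).card) → ∃ x : Fin r → ℚ, (∀ j, x j ∈ Y j) ∧
          ∀ α : ℂ, AlgLe m (T ^ A) α → ∏ j, Complex.Gamma (x j) ≠ α * β) := by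
  classical
  set L : Set ℂ := (fun x : ℝ => (x : ℂ)) '' Set.Icc a (max a b) with hL
  have hLc : IsCompact L := isCompact_Icc.image Complex.continuous_ofReal
  have hLre : ∀ t ∈ L, 0 < t.re := by
    rintro _ ⟨x, hx, rfl⟩
    change 0 < ((x : ℝ) : ℂ).re
    rw [Complex.ofReal_re]
    linarith [hx.1]
  obtain ⟨B, C, T₀, hB, hC, hT₀, H⟩ := mainL 1 r (m + 1) m
    (fun (_ : Fin r) (_ : Unit) (t : ℂ) => Complex.Gamma t) L hLc
    (fun _ _ t ht => Pool.Agent.Y771.RP.Gamma_analyticAt fun k hk => by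
        have h2 := congrArg Complex.re hk
        simp at h2
        have h3 := hLre t ht
        have h4 : (0 : ℝ) ≤ k := Nat.cast_nonneg k
        linarith)
    (fun _ t ht => locInd_gamma t (hLre t ht)) |A| (δ / 2) (by positivity)
  set c₀ : ℝ := |b| + 1 with hc₀
  have hc₀1 : 1 ≤ c₀ := by
    rw [hc₀]
    linarith [abs_nonneg b]
  have hc₀p : 0 < c₀ := by linarith
  refine ⟨(r + 1) * ⌈C⌉₊, max T₀ c₀, fun β T hT Y hY hYd => ?_⟩
  have hTT₀ : T₀ ≤ T := (le_max_left _ _).trans hT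
  have hTc : c₀ ≤ T := (le_max_right _ _).trans hT
  have hT1 : 1 ≤ T := hc₀1.trans hTc
  have hTp : 0 < T := by linarith
  set T' : ℝ := c₀ * T with hT'
  have hTT' : T ≤ T' := le_mul_of_one_le_left hTp.le hc₀1
  have hT'1 : 1 ≤ T' := hT1.trans hTT'
  have hT'p : 0 < T' := by linarith
  have hrad : T ^ (-δ) ≤ T' ^ (-(δ / 2)) := by
    rw [Real.rpow_neg hTp.le, Real.rpow_neg hT'p.le]
    refine inv_anti₀ (Real.rpow_pos_of_pos hT'p _) ?_
    calc T' ^ (δ / 2) ≤ (T * T) ^ (δ / 2) :=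
          Real.rpow_le_rpow hT'p.le (mul_le_mul_of_nonneg_right hTc hTp.le) (by positivity)
      _ = T ^ δ := by
          rw [Real.mul_rpow hTp.le hTp.le, ← Real.rpow_add hTp]
          congr 1
          ring
  -- the centres
  have hLa : (a : ℂ) ∈ L := ⟨a, ⟨le_rfl, le_max_left _ _⟩, rfl⟩
  have hτ : ∀ j, ∃ τ : L, ∀ x ∈ Y j, ‖(algebraMap ℚ ℂ) x - (τ : ℂ)‖ ≤ T' ^ (-(δ / 2)) := by
    intro j
    rcases (Y j).eq_empty_or_nonempty with h | ⟨y, hy⟩
    · refine ⟨⟨a, hLa⟩, fun x hx => ?_⟩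
      rw [h] at hx
      exact absurd hx (Finset.notMem_empty x)
    · obtain ⟨h1, h2, -⟩ := hY j y hy
      refine ⟨⟨((y : ℝ) : ℂ), ⟨(y : ℝ), ⟨h1, h2.trans (le_max_right _ _)⟩, rfl⟩⟩, fun x hx => ?_⟩
      change ‖(algebraMap ℚ ℂ) x - ((y : ℝ) : ℂ)‖ ≤ _
      have h3 : (algebraMap ℚ ℂ) x - ((y : ℝ) : ℂ) = (((x : ℝ) - y : ℝ) : ℂ) := by
        simp
      rw [h3, Complex.norm_real, Real.norm_eq_abs]
      exact (hYd j x hx y hy).trans hrad
  choose τ hτ' using hτ
  set Bad : Finset (Fin r → ℚ) := (Fintype.piFinset Y).filter fun x =>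
    ∃ α : ℂ, AlgLe m (T ^ A) α ∧ ∏ j, Complex.Gamma (x j) = α * β with hBad
  have hBadS : {x : Fin r → ℚ | (∀ j, x j ∈ Y j) ∧
      ∃ α : ℂ, AlgLe m (T ^ A) α ∧ ∏ j, Complex.Gamma (x j) = α * β} = (Bad : Set (Fin r → ℚ)) := by
    ext a
    simp only [hBad, Finset.coe_filter, Fintype.mem_piFinset, Set.mem_ofPred_eq]
  have hcount : (Bad.card : ℝ) ≤ C * Pool.Agent.Y124.MgR Y := by
    refine H ℚ (by simp) (algebraMap ℚ ℂ) (fun k : Fin (m + 1) => (β⁻¹) ^ (k : ℕ)) T' (hTT₀.trans hTT') τ Y ?_ Bad ?_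
    · intro j x hx
      refine ⟨hτ' j x hx, ((x.num : ℤ) : 𝓞 ℚ), ((x.den : ℕ) : 𝓞 ℚ), ?_, ?_, ?_, ?_⟩
      · exact_mod_cast x.den_pos.ne'
      · refine Y120.house_le ℚ hT'p.le fun φ => ?_
        have e1 : ((((x.num : ℤ) : 𝓞 ℚ)) : ℚ) = ((x.num : ℤ) : ℚ) := by push_cast; rfl
        rw [e1, map_intCast, Complex.norm_intCast]
        obtain ⟨h1, h2, h3⟩ := hY j x hx
        have h4 : (x.num : ℝ) = (x : ℝ) * x.den := by
          have h5 : (x : ℝ) = (x.num : ℝ) / x.den := by exact_mod_cast (Rat.cast_def x : (x : ℝ) = _)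
          have h6 : (x.den : ℝ) ≠ 0 := by exact_mod_cast x.den_pos.ne'
          rw [h5]
          field_simp
        rw [h4, abs_mul, abs_of_pos (ha.trans_le h1), abs_of_nonneg (Nat.cast_nonneg _), hT']
        refine mul_le_mul ?_ h3 (Nat.cast_nonneg _) hc₀p.le
        rw [hc₀]
        linarith [le_abs_self b]
      · refine Y120.house_le ℚ hT'p.le fun φ => ?_
        have e1 : ((((x.den : ℕ) : 𝓞 ℚ)) : ℚ) = ((x.den : ℕ) : ℚ) := by push_cast; rfl
        rw [e1, map_natCast, Complex.norm_natCast]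
        exact (hY j x hx).2.2.trans hTT'
      · have e1 : ((((x.num : ℤ) : 𝓞 ℚ)) : ℚ) = ((x.num : ℤ) : ℚ) := by push_cast; rfl
        have e2 : ((((x.den : ℕ) : 𝓞 ℚ)) : ℚ) = ((x.den : ℕ) : ℚ) := by push_cast; rfl
        rw [e1, e2]
        exact (Rat.num_div_den x).symm
    · intro x hx
      rw [hBad, Finset.mem_filter, Fintype.mem_piFinset] at hx
      obtain ⟨hxY, α, ⟨p, hp0, hpm, hpH, hpα⟩, hprod⟩ := hx
      refine ⟨hxY, ?_⟩
      have hβ : β ≠ 0 := by
        rintro rfl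
        rw [mul_zero] at hprod
        refine Finset.prod_ne_zero_iff.2 (fun j _ => ?_) hprod
        refine Complex.Gamma_ne_zero fun k hk => ?_
        have h1 : ((x j : ℚ) : ℝ) = -(k : ℝ) := by exact_mod_cast hk
        have h2 := (hY j _ (hxY j)).1
        have h3 : (0 : ℝ) ≤ k := Nat.cast_nonneg k
        linarith
      refine ⟨RQ r m (fun k => (β⁻¹) ^ k * (p.coeff k : ℂ)), RQ_degree hr m _, ?_, ?_⟩
      · intro s
        rw [RQ_coeff hr]
        by_cases hs : s = ek r (s (⟨0, hr⟩, ())) ∧ s (⟨0, hr⟩, ()) < m + 1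
        · rw [if_pos hs.1, if_pos hs.2]
          refine ⟨fun i => if i = ⟨s (⟨0, hr⟩, ()), hs.2⟩ then ((p.coeff (s (⟨0, hr⟩, ())) : ℤ) : 𝓞 ℚ) else 0,
            fun i φ => ?_, ?_⟩
          · by_cases hi : i = ⟨s (⟨0, hr⟩, ()), hs.2⟩
            · simp only [if_pos hi]
              have e1 : ((((p.coeff (s (⟨0, hr⟩, ())) : ℤ) : 𝓞 ℚ)) : ℚ) = ((p.coeff (s (⟨0, hr⟩, ())) : ℤ) : ℚ) := rfl
              rw [e1, map_intCast, Complex.norm_intCast]
              calc |((p.coeff (s (⟨0, hr⟩, ())) : ℤ) : ℝ)| ≤ T ^ A := hpH _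
                _ ≤ T ^ |A| := Real.rpow_le_rpow_of_exponent_le hT1 (le_abs_self A)
                _ ≤ T' ^ |A| := Real.rpow_le_rpow hTp.le hTT' (abs_nonneg A)
            · simp only [if_neg hi, map_zero, norm_zero]
              positivity
          · rw [Finset.sum_eq_single ⟨s (⟨0, hr⟩, ()), hs.2⟩]
            · simp only [if_true]
              congr 1
            · intro b _ hb
              simp only [if_neg hb]
              simp
            · intro h
              exact absurd (Finset.mem_univ _) h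
        · refine ⟨fun _ => 0, fun i φ => ?_, ?_⟩
          · simp only [map_zero, norm_zero]
            positivity
          · by_cases h1 : s = ek r (s (⟨0, hr⟩, ()))
            · rw [if_pos h1, if_neg (fun h2 => hs ⟨h1, h2⟩)]
              simp
            · rw [if_neg h1]
              simp
      · obtain ⟨k, hk⟩ := Polynomial.support_nonempty.2 hp0
        have hkm : k ≤ m := (Polynomial.le_natDegree_of_mem_supp k hk).trans hpm
        refine ⟨ek r k, ?_, ?_⟩
        · rw [RQ_coeff hr]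
          have h3 : ek r k (⟨0, hr⟩, ()) = k := by simp [ek]
          rw [h3, if_pos rfl, if_pos (by omega)]
          exact mul_ne_zero (pow_ne_zero _ (inv_ne_zero hβ)) (by exact_mod_cast Polynomial.mem_support_iff.1 hk)
        · have h3 : MvPolynomial.aeval (fun z : Fin r × Unit => Complex.Gamma ((algebraMap ℚ ℂ) (x z.1)))
              (RQ r m (fun k => (β⁻¹) ^ k * (p.coeff k : ℂ))) = 0 := by
            rw [RQ_eval]
            have h4 : ∏ j, Complex.Gamma ((algebraMap ℚ ℂ) (x j)) = α * β := by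
              rw [← hprod]
              rfl
            simp only [h4]
            have h5 : ∀ k ∈ Finset.range (m + 1), (β⁻¹) ^ k * (p.coeff k : ℂ) * (α * β) ^ k =
                (p.coeff k : ℂ) * α ^ k := by
              intro k _
              rw [mul_pow, inv_pow]
              field_simp
            rw [Finset.sum_congr rfl h5, ← hpα, Polynomial.aeval_eq_sum_range' (Nat.lt_succ_of_le hpm)]
            refine Finset.sum_congr rfl fun k _ => ?_
            rw [zsmul_eq_mul]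
          rw [h3, norm_zero]
          positivity
  have hM0 : 0 ≤ Pool.Agent.Y124.MgR Y :=
    Finset.sum_nonneg fun j _ => Finset.prod_nonneg fun i _ => by split_ifs <;> positivity
  have hCle : C ≤ (((r + 1) * ⌈C⌉₊ : ℕ) : ℝ) := by
    have h1 : C ≤ ⌈C⌉₊ := Nat.le_ceil C
    have h2 : (0 : ℝ) ≤ ⌈C⌉₊ := Nat.cast_nonneg _
    push_cast
    nlinarith [Nat.cast_nonneg (α := ℝ) r]
  refine ⟨?_, fun hYc => ?_⟩
  · rw [hBadS, Set.ncard_coe_finset, ← MgR_eq]
    exact hcount.trans (mul_le_mul_of_nonneg_right hCle hM0)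
  · by_contra hcon
    push Not at hcon
    have h1 : Bad = Fintype.piFinset Y := by
      rw [hBad, Finset.filter_true_of_mem]
      intro x hx
      exact hcon x (Fintype.mem_piFinset.1 hx)
    rw [h1, Fintype.card_piFinset, MgR_eq] at hcount
    push_cast at hcount
    have hpos : ∀ j, (0 : ℝ) < (Y j).card := fun j => by
      have := hYc j
      exact_mod_cast (by omega : 0 < (Y j).card)
    have hprod : (0 : ℝ) < ∏ j, ((Y j).card : ℝ) := Finset.prod_pos fun j _ => hpos j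
    have h2 : ∀ j, ((r + 1 : ℕ) : ℝ) * (C * ∏ i ∈ Finset.univ.erase j, ((Y i).card : ℝ)) ≤ ∏ j, ((Y j).card : ℝ) := by
      intro j
      rw [← Finset.mul_prod_erase Finset.univ _ (Finset.mem_univ j), ← mul_assoc]
      refine mul_le_mul_of_nonneg_right ?_ (Finset.prod_nonneg fun _ _ => Nat.cast_nonneg _)
      have h3 : (((r + 1) * ⌈C⌉₊ : ℕ) : ℝ) ≤ (Y j).card := by exact_mod_cast (hYc j).le
      have h4 : C ≤ ⌈C⌉₊ := Nat.le_ceil C
      have h5 : (0 : ℝ) ≤ ((r + 1 : ℕ) : ℝ) := Nat.cast_nonneg _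
      calc ((r + 1 : ℕ) : ℝ) * C ≤ ((r + 1 : ℕ) : ℝ) * ⌈C⌉₊ := mul_le_mul_of_nonneg_left h4 h5
        _ = (((r + 1) * ⌈C⌉₊ : ℕ) : ℝ) := by push_cast; ring
        _ ≤ _ := h3
    have h3 : ((r + 1 : ℕ) : ℝ) * (C * ∑ j, ∏ i ∈ Finset.univ.erase j, ((Y i).card : ℝ)) ≤
        r * ∏ j, ((Y j).card : ℝ) := by
      rw [Finset.mul_sum, Finset.mul_sum]
      refine (Finset.sum_le_sum fun j _ => h2 j).trans (le_of_eq ?_)
      rw [Finset.sum_const, Finset.card_univ, Fintype.card_fin, nsmul_eq_mul]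
    have h4 : ((r + 1 : ℕ) : ℝ) * ∏ j, ((Y j).card : ℝ) ≤ r * ∏ j, ((Y j).card : ℝ) :=
      (mul_le_mul_of_nonneg_left hcount (Nat.cast_nonneg _)).trans h3
    push_cast at h4
    nlinarith

end Pool.Agent.Results.MP_c2409d_nt.EveryDenominator
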