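import Pool.Agent.R437.Met.Gen
import Pool.Agent.Results.MP_c2409d_nt.FermatRelative

/-!
# Products of gamma values `Γ(q_j) Γ(ρ_i) / Γ(q_j + ρ_i)` at the rational points near a given point

Let `ρ_1, …, ρ_m` be positive real (for instance rational) numbers such that no `ρ_i` and no `ρ_i - ρ_k` is an integer,
let `F` be a number field in `ℂ` and `c_0, c_1, …` any complex numbers, for instance the powers of `π`. For every
`τ > 0` and all `ξ` in `(0, ∞) ^ n` outside a set of Hausdorff dimension at most `2 (n - 1) / τ` the `n`-tuples of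
rational numbers `q_j` of denominators at most `T`, `T` large, with `|ξ_j - q_j| ≤ C T ^ (-τ)` have the following
property: the `m n` numbers `B(q_j, ρ_i) = Γ(q_j) Γ(ρ_i) / Γ(q_j + ρ_i)` satisfy no polynomial relation, not even an
approximate one, of degree at most `d` whose coefficients are linear combinations of `c_0, …, c_(g-1)` with
coefficients in `F` of height at most `T ^ A`. For `n = 1` the exceptional set has dimension zero, for every `τ > 0`.
The starting file `FermatRelative` bounds the number of the exceptional tuples.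
-/

set_option autoImplicit false

open NumberField

namespace Pool.Agent.Results.MP_c2409d_nt.NearEveryPoint

open Pool.Agent.R437.Met

/-- Euler's integral `B(r, s) = ∫_0^1 x^(r-1) (1-x)^(s-1) dx`. -/
noncomputable def B (r s : ℝ) : ℝ := ∫ x in (0 : ℝ)..1, x ^ (r - 1) * (1 - x) ^ (s - 1)

/-- There is a polynomial `P` of degree at most `d` in each of `m n` variables, with coefficients of the form
`∑ c_i ι(a_i)`, where the `a_i` are integers of the number field `F` all of whose conjugates have absolute value at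
most `T ^ A`, such that the value of `P` at the numbers `B(q_j, ρ_i)` is at most `T ^ (-R)` times the absolute value of
some nonzero coefficient of `P`. -/
def Related {n m g : ℕ} (ρ : Fin m → ℝ) (F : Type) [Field F] [NumberField F] (ι : F →+* ℂ) (c : Fin g → ℂ)
    (d : ℕ) (A R T : ℝ) (q : Fin n → ℚ) : Prop :=
  ∃ P : MvPolynomial (Fin n × Fin m) ℂ, (∀ x, P.degreeOf x ≤ d) ∧
    (∀ s, ∃ a : Fin g → 𝓞 F, (∀ i (φ : F →+* ℂ), ‖φ (a i)‖ ≤ T ^ A) ∧ P.coeff s = ∑ i, c i * ι (a i)) ∧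
    ∃ s₀, P.coeff s₀ ≠ 0 ∧
      ‖MvPolynomial.aeval (fun x : Fin n × Fin m => (B (q x.1) (ρ x.2) : ℂ)) P‖ ≤ T ^ (-R) * ‖P.coeff s₀‖

/-- **Products of gamma values near a given point.** Let `n ≥ 1`, let `ρ_1, …, ρ_m > 0` be such that no `ρ_i` and no
`ρ_i - ρ_k` (`i ≠ k`) is an integer, `F` a number field with an embedding `ι` in `ℂ`, `c` a sequence of complex
numbers. For every `τ > 0` there is a set `E` of Hausdorff dimension at most `2 (n - 1) / τ` such that for all `ξ` in
`(0, ∞) ^ n` outside `E` and all `g`, `d`, `A` there is `R` such that for all `C` and all large `T`: for the `n`-tuples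
`q` of rational numbers of denominators at most `T` with `|ξ_j - q_j| ≤ C T ^ (-τ)` for all `j` the numbers
`B(q_j, ρ_i)` satisfy no relation in the sense of `Related`, with coefficients that are linear combinations of the
first `g` of the numbers `c`. -/
theorem result (n m : ℕ) (hn : 1 ≤ n) (ρ : Fin m → ℝ) (hρ : ∀ i, 0 < ρ i) (h1 : ∀ i, ∀ z : ℤ, ρ i ≠ z)
    (h2 : ∀ i k, i ≠ k → ∀ z : ℤ, ρ i - ρ k ≠ z) (F : Type) [Field F] [NumberField F] (ι : F →+* ℂ)
    (c : ℕ → ℂ) (τ : ℝ) (hτ : 0 < τ) :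
    ∃ E : Set (Fin n → ℝ), dimH E ≤ ENNReal.ofReal (2 * ((n : ℝ) - 1) / τ) ∧
      ∀ ξ : Fin n → ℝ, (∀ j, 0 < ξ j) → ξ ∉ E → ∀ (g d : ℕ) (A : ℝ), ∃ R : ℝ, ∀ C : ℝ, ∃ T₁ : ℝ,
        ∀ T : ℝ, T₁ ≤ T → ∀ q : Fin n → ℚ,
          (∀ j, ((q j).den : ℝ) ≤ T ∧ |ξ j - q j| ≤ C * T ^ (-τ)) →
            ¬ Related ρ F ι (fun i : Fin g => c i) d A R T q := by
  classical
  have hn' : (1 : ℝ) ≤ n := by exact_mod_cast hn
  have hSo : IsOpen (Set.pi Set.univ fun _ : Fin n => Set.Ioi (0 : ℝ)) :=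
    isOpen_set_pi Set.finite_univ fun _ _ => isOpen_Ioi
  obtain ⟨E, hE, h⟩ := Gen.near F (fun (q : Fin n → ℚ) (x : Fin n × Fin m) => (B (q x.1) (ρ x.2) : ℂ)) ι c
    (fun (q : Fin n → ℚ) (j : Fin n) => (q j : ℝ)) (fun T q => ∀ j, ((q j).den : ℝ) ≤ T)
    (Set.pi Set.univ fun _ : Fin n => Set.Ioi (0 : ℝ)) hSo (2 * ((n : ℝ) - 1)) τ (by linarith) hτ
    (fun T T' q hT h j => (h j).trans hT)
    (by
      intro K hK hKS g d A ε hε
      obtain ⟨a, b, hab, habS, hmem⟩ := Tup.compact_Icc isOpen_Ioi Set.ordConnected_Ioi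
        ⟨(1 : ℝ), Set.mem_Ioi.2 one_pos⟩ hK hKS
      have ha : 0 < a := habS ⟨le_rfl, hab.le⟩
      obtain ⟨R, C, T₀, h⟩ := FermatRelative.result m ρ hρ h1 h2 a b ha (Module.finrank ℚ F) n g d A ε hε
      obtain ⟨C₁, hC₁, hcnt⟩ := Gen.rat_count a b
      obtain ⟨C', hC'⟩ := Gen.pow_le (N := fun T => ({q : ℚ | a ≤ q ∧ q ≤ b ∧ (q.den : ℝ) ≤ T}.ncard : ℝ))
        (C₁ := C₁) (p := 2) (fun T => Nat.cast_nonneg _)
        (fun T hT => by exact_mod_cast (hcnt T hT).2) n hn C ε
      refine ⟨R, C', max T₀ 1, fun T hT => ?_⟩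
      have hT1 : 1 ≤ T := (le_max_right _ _).trans hT
      have hfin := (hcnt T hT1).1
      have h3 := h F le_rfl ι (fun i : Fin g => c i) T ((le_max_left _ _).trans hT) hfin.toFinset
        (fun x hx => (Set.Finite.mem_toFinset hfin).1 hx)
      rw [← Set.ncard_eq_toFinset_card _ hfin] at h3
      have hfin2 : (FermatRelative.Exceptional n d ρ F ι (fun i : Fin g => c i) hfin.toFinset A R T).Finite := by
        refine (Finset.finite_toSet (Fintype.piFinset fun _ : Fin n => hfin.toFinset)).subset ?_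
        intro t ht
        rw [Finset.mem_coe, Fintype.mem_piFinset]
        exact ht.1
      have hsub : {x : Fin n → ℚ | (fun j => (x j : ℝ)) ∈ K ∧ (∀ j, ((x j).den : ℝ) ≤ T) ∧
          Gen.Rel F (fun (q : Fin n → ℚ) (x : Fin n × Fin m) => (B (q x.1) (ρ x.2) : ℂ)) ι
            (fun i : Fin g => c i) d A R T x} ⊆
          FermatRelative.Exceptional n d ρ F ι (fun i : Fin g => c i) hfin.toFinset A R T := by
        rintro q ⟨h4, h5, h6⟩
        refine ⟨fun j => (Set.Finite.mem_toFinset hfin).2 ⟨(hmem _ h4 j).1, (hmem _ h4 j).2, h5 j⟩, h6⟩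
      refine ⟨hfin2.subset hsub, le_trans ?_ (h3.trans (hC' T hT1))⟩
      exact_mod_cast Set.ncard_le_ncard hsub hfin2)
  refine ⟨E, hE, fun ξ hξ hξE g d A => ?_⟩
  obtain ⟨R, hR⟩ := h ξ (fun j _ => hξ j) hξE g d A
  refine ⟨R, fun C => ?_⟩
  obtain ⟨T₁, hT⟩ := hR |C|
  refine ⟨max T₁ 0, fun T hT' q hq => hT T ((le_max_left _ _).trans hT') q (fun j => (hq j).1) ?_⟩
  have hT0 : 0 ≤ T := (le_max_right _ _).trans hT'
  rw [dist_pi_le_iff (by positivity)]
  intro j
  rw [Real.dist_eq]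
  exact (hq j).2.trans (mul_le_mul_of_nonneg_right (le_abs_self C) (by positivity))

end Pool.Agent.Results.MP_c2409d_nt.NearEveryPoint
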