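import Pool.Agent.R349.GamProd
import Pool.Agent.R349.Ball

/-!
# Rohrlich's conjecture along the families `Γ(x_1 + y_1 / n) ⋯ Γ(x_r + y_r / n)`

Let `x_j` and `y_j ≠ 0` be rational numbers. If the product `Γ(x_1 + y_1 / n) ⋯ Γ(x_r + y_r / n)` is an algebraic multiple of
`π ^ (r / 2)` for infinitely many `n`, the conjecture together with the known relations makes one expect that the factors cancel
in the sense of the reflection and multiplication formulas: for every rational `w` the numbers of the indices `j` with `y_j > 0`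
and with `y_j < 0` for which `x_j + y_j w` is an integer are equal. We prove that in all other cases (for instance if all `y_j`
are positive) and for every complex number `β`, for instance `β = π ^ (r / 2)`, the product is a multiple `α β` with an algebraic
number `α` of degree at most `m` and height at most `n ^ A` for extremely few `n` only: at most `Z` in every interval
`[N, N ^ K]`, where `Z` does not depend on `N` and `β`. In particular there are at most `O(log log X)` such `n` below `X`.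

Proof. The function `G(t) = Γ(x_1 + y_1 t) ⋯ Γ(x_r + y_r t)` satisfies `S(t) G(t + L) = R(t) G(t)` with polynomials `R`, `S`; if
it were algebraic, `R` and `S` would have the same number of zeros in each class `w + ℤ L`. Determinants of Bombieri-Pila type
for the points `t = 1 / n` close to `0` then give the bound.
-/

set_option autoImplicit false

open NumberField

namespace Pool.Agent.Results.MP_c2409d_nt.OneParameter

/-- The complex number `α` is algebraic of degree at most `m` and height at most `H`: it is a root of a nonzero polynomial of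
degree at most `m` whose coefficients are integers of absolute value at most `H`. -/
def AlgLe (m : ℕ) (H : ℝ) (α : ℂ) : Prop :=
  ∃ p : Polynomial ℤ, p ≠ 0 ∧ p.natDegree ≤ m ∧ (∀ i, |(p.coeff i : ℝ)| ≤ H) ∧ Polynomial.aeval α p = 0

open Pool.Agent.R349

/-- the relation polynomial -/
noncomputable def RP (m : ℕ) (c : ℕ → ℂ) : MvPolynomial Unit ℂ :=
  ∑ k ∈ Finset.range (m + 1), MvPolynomial.monomial (Finsupp.single () k) (c k)

lemma RP_coeff (m : ℕ) (c : ℕ → ℂ) (s : Unit →₀ ℕ) : (RP m c).coeff s = if s () < m + 1 then c (s ()) else 0 := by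
  classical
  unfold RP
  rw [MvPolynomial.coeff_sum]
  simp only [MvPolynomial.coeff_monomial]
  have h1 : ∀ k, (Finsupp.single () k = s) ↔ k = s () := by
    intro k
    constructor
    · rintro rfl
      simp
    · rintro rfl
      ext u
      simp
  simp only [h1]
  rw [Finset.sum_ite_eq' (Finset.range (m + 1)) (s ())]
  simp only [Finset.mem_range]

lemma RP_degree (m : ℕ) (c : ℕ → ℂ) (u : Unit) : (RP m c).degreeOf u ≤ m := by
  rw [MvPolynomial.degreeOf_le_iff]
  intro s hs
  rw [MvPolynomial.mem_support_iff, RP_coeff] at hs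
  by_contra hlt
  apply hs
  rw [if_neg]
  intro h
  apply hlt
  have : s u = s () := rfl
  omega

lemma RP_eval (m : ℕ) (c : ℕ → ℂ) (v : Unit → ℂ) :
    MvPolynomial.aeval v (RP m c) = ∑ k ∈ Finset.range (m + 1), c k * v () ^ k := by
  unfold RP
  rw [map_sum]
  refine Finset.sum_congr rfl fun k _ => ?_
  rw [MvPolynomial.aeval_monomial, Finsupp.prod_single_index]
  · rfl
  · exact pow_zero _

/-- change of the arguments by integers -/
lemma shift_args {r : ℕ} (x y : Fin r → ℚ) (hy : ∀ j, y j ≠ 0) :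
    ∃ (M : ℕ) (C₀ c : ℕ), (∀ j, 0 < x j + M) ∧ ∀ n : ℕ, C₀ < n → ∃ U V : ℤ, U ≠ 0 ∧ V ≠ 0 ∧
      |(U : ℝ)| ≤ (n : ℝ) ^ c ∧ |(V : ℝ)| ≤ (n : ℝ) ^ c ∧
      GF (fun j => x j + M) y ((n : ℂ))⁻¹ * V = (∏ j, Complex.Gamma ((x j : ℂ) + y j / n)) * U := by
  set D : ℕ := (∏ j, (x j).den) * ∏ j, (y j).den with hD
  have hD0 : 0 < D := Nat.mul_pos (Finset.prod_pos fun j _ => (x j).den_pos) (Finset.prod_pos fun j _ => (y j).den_pos)
  have hint : ∀ q : ℚ, ∀ E : ℕ, q.den ∣ E → ∃ z : ℤ, (z : ℚ) = E * q := by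
    intro q E ⟨k, hk⟩
    refine ⟨k * q.num, ?_⟩
    have h1 : q = (q.num : ℚ) / q.den := (Rat.num_div_den q).symm
    have h2 : (q.den : ℚ) ≠ 0 := by exact_mod_cast q.den_pos.ne'
    have h3 : (q.num : ℚ) = q * q.den := by
      rw [eq_comm, ← eq_div_iff h2]
      exact h1
    rw [hk]
    push_cast
    rw [h3]
    ring
  have hX : ∀ j, ∃ z : ℤ, (z : ℚ) = D * x j := fun j => hint _ _
    (Dvd.dvd.mul_right (Finset.dvd_prod_of_mem (fun j => (x j).den) (Finset.mem_univ j)) _)
  have hY : ∀ j, ∃ z : ℤ, (z : ℚ) = D * y j := fun j => hint _ _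
    (Dvd.dvd.mul_left (Finset.dvd_prod_of_mem (fun j => (y j).den) (Finset.mem_univ j)) _)
  choose X hX using hX
  choose Y hY using hY
  set M : ℕ := ∑ j, (X j).natAbs + 1 with hM
  set C₀ : ℕ := ∑ j, ((X j).natAbs + (Y j).natAbs) + M * D + D with hC₀
  have hDq : (0 : ℚ) < D := by exact_mod_cast hD0
  have hXM : ∀ j, (X j).natAbs < M := by
    intro j
    have h1 := Finset.single_le_sum (f := fun j => (X j).natAbs) (fun _ _ => Nat.zero_le _) (Finset.mem_univ j)
    omega
  have hXC : ∀ j, (X j).natAbs + (Y j).natAbs + M * D + D ≤ C₀ := by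
    intro j
    have h1 := Finset.single_le_sum (f := fun j => (X j).natAbs + (Y j).natAbs) (fun _ _ => Nat.zero_le _)
      (Finset.mem_univ j)
    omega
  have hpos : ∀ j, 0 < x j + M := by
    intro j
    have h1 : -(M : ℤ) < X j := by
      have := hXM j
      omega
    have h2 : -(M : ℚ) < X j := by exact_mod_cast h1
    rw [hX] at h2
    have h3 : (1 : ℚ) ≤ D := by exact_mod_cast hD0
    by_contra hcon
    rw [not_lt] at hcon
    have h4 : x j ≤ -M := by linarith
    have h5 : (D : ℚ) * x j ≤ D * (-M) := mul_le_mul_of_nonneg_left h4 hDq.le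
    have h6 : (D : ℚ) * M ≥ 1 * M := mul_le_mul_of_nonneg_right h3 (Nat.cast_nonneg _)
    linarith
  refine ⟨M, C₀, 2 * (r * M), hpos, fun n hn => ?_⟩
  have hn0 : 0 < n := by omega
  have hnc : (n : ℂ) ≠ 0 := by exact_mod_cast hn0.ne'
  have hn1 : (1 : ℝ) ≤ n := by exact_mod_cast hn0
  have hDc : (D : ℂ) ≠ 0 := by exact_mod_cast hD0.ne'
  let e : Fin r → ℕ → ℤ := fun j i => n * X j + Y j + i * D * n
  have hYne : ∀ j, Y j ≠ 0 := by
    intro j h
    have h1 := hY j
    rw [h, Int.cast_zero] at h1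
    rcases mul_eq_zero.1 h1.symm with h2 | h2
    · exact hDq.ne' h2
    · exact hy j h2
  have he0 : ∀ j i, e j i ≠ 0 := by
    intro j i h
    simp only [e] at h
    have h1 : Y j = -(n * (X j + i * D)) := by linear_combination h
    have h2 : (n : ℤ) ∣ Y j := ⟨-(X j + i * D), by rw [h1]; ring⟩
    have h3 := Int.le_of_dvd (Int.natAbs_pos.2 (hYne j) |> fun h => by exact_mod_cast h)
      (Int.dvd_natAbs.2 h2 : (n : ℤ) ∣ ((Y j).natAbs : ℤ))
    have h4 := hXC j
    omega
  have hsq : ∀ z : ℝ, |z| ≤ C₀ * n → |z| ≤ (n : ℝ) ^ 2 := by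
    intro z hz
    refine hz.trans ?_
    rw [sq]
    exact mul_le_mul_of_nonneg_right (by exact_mod_cast hn.le) (by positivity)
  have heb : ∀ j, ∀ i < M, |((e j i : ℤ) : ℝ)| ≤ (n : ℝ) ^ 2 := by
    intro j i hi
    apply hsq
    simp only [e]
    have h1 : ((X j).natAbs : ℝ) = |(X j : ℝ)| := by rw [Nat.cast_natAbs, Int.cast_abs]
    have h2 : ((Y j).natAbs : ℝ) = |(Y j : ℝ)| := by rw [Nat.cast_natAbs, Int.cast_abs]
    have h3 : (((X j).natAbs + (Y j).natAbs + M * D + D : ℕ) : ℝ) ≤ C₀ := by exact_mod_cast hXC j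
    push_cast at h3 ⊢
    rw [h1, h2] at h3
    have h4 : (i : ℝ) ≤ M := by exact_mod_cast hi.le
    have h5 : (0 : ℝ) ≤ D := Nat.cast_nonneg _
    have hn' : (0 : ℝ) ≤ n := by linarith
    calc |(n : ℝ) * X j + Y j + i * D * n| ≤ |(n : ℝ) * X j| + |(Y j : ℝ)| + |(i : ℝ) * D * n| := by
          refine (abs_add_le _ _).trans ?_
          exact add_le_add_left (abs_add_le _ _) _
      _ = n * |(X j : ℝ)| + |(Y j : ℝ)| + i * D * n := by
          rw [abs_mul, abs_of_nonneg hn', abs_of_nonneg (by positivity : (0 : ℝ) ≤ (i : ℝ) * D * n)]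
      _ ≤ n * |(X j : ℝ)| + n * |(Y j : ℝ)| + M * D * n := by
          have h6 : |(Y j : ℝ)| ≤ n * |(Y j : ℝ)| := le_mul_of_one_le_left (abs_nonneg _) hn1
          have h7 : (i : ℝ) * D * n ≤ M * D * n :=
            mul_le_mul_of_nonneg_right (mul_le_mul_of_nonneg_right h4 h5) hn'
          linarith
      _ ≤ (|(X j : ℝ)| + |(Y j : ℝ)| + M * D + D) * n := by nlinarith
      _ ≤ C₀ * n := mul_le_mul_of_nonneg_right h3 hn'
  refine ⟨∏ j, ∏ i ∈ Finset.range M, e j i, ((D * n : ℕ) : ℤ) ^ (r * M), ?_, ?_, ?_, ?_, ?_⟩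
  · exact Finset.prod_ne_zero_iff.2 fun j _ => Finset.prod_ne_zero_iff.2 fun i _ => he0 j i
  · refine pow_ne_zero _ ?_
    have : D * n ≠ 0 := (Nat.mul_pos hD0 hn0).ne'
    exact_mod_cast this
  · push_cast
    rw [Finset.abs_prod]
    calc ∏ j, |∏ i ∈ Finset.range M, ((e j i : ℤ) : ℝ)| ≤ ∏ _j : Fin r, ((n : ℝ) ^ 2) ^ M := by
          refine Finset.prod_le_prod (fun _ _ => abs_nonneg _) fun j _ => ?_
          rw [Finset.abs_prod]
          calc ∏ i ∈ Finset.range M, |((e j i : ℤ) : ℝ)| ≤ ∏ _i ∈ Finset.range M, (n : ℝ) ^ 2 :=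
                Finset.prod_le_prod (fun _ _ => abs_nonneg _) fun i hi => heb j i (Finset.mem_range.1 hi)
            _ = ((n : ℝ) ^ 2) ^ M := by rw [Finset.prod_const, Finset.card_range]
      _ = (n : ℝ) ^ (2 * (r * M)) := by
          rw [Finset.prod_const, Finset.card_univ, Fintype.card_fin, ← pow_mul, ← pow_mul]
          congr 1
          ring
  · push_cast
    rw [abs_pow, pow_mul (n : ℝ) 2 (r * M)]
    refine pow_le_pow_left₀ (abs_nonneg _) (hsq _ ?_) _
    rw [abs_of_nonneg (by positivity)]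
    refine mul_le_mul_of_nonneg_right ?_ (by positivity)
    have : D ≤ C₀ := by omega
    exact_mod_cast this
  · have hGm : ∀ j, Complex.Gamma ((x j : ℂ) + y j / n + M) * ((D * n : ℕ) : ℂ) ^ M =
        Complex.Gamma ((x j : ℂ) + y j / n) * ∏ i ∈ Finset.range M, ((e j i : ℤ) : ℂ) := by
      intro j
      have hef : ∀ i : ℕ, ((e j i : ℤ) : ℂ) = ((x j : ℂ) + y j / n + i) * ((D * n : ℕ) : ℂ) := by
        intro i
        have h1 : (X j : ℂ) = D * x j := by exact_mod_cast congrArg (fun q : ℚ => (q : ℂ)) (hX j)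
        have h2 : (Y j : ℂ) = D * y j := by exact_mod_cast congrArg (fun q : ℚ => (q : ℂ)) (hY j)
        simp only [e]
        push_cast
        rw [h1, h2]
        field_simp
      have hnp : ∀ k : ℕ, (x j : ℂ) + y j / n ≠ -k := by
        intro k hk
        have h1 := hef k
        rw [hk] at h1
        have h2 : ((e j k : ℤ) : ℂ) = 0 := by rw [h1]; ring
        exact he0 j k (by exact_mod_cast h2)
      rw [gamma_add_nat' _ hnp]
      have h1 : ∏ i ∈ Finset.range M, ((e j i : ℤ) : ℂ) =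
          (∏ i ∈ Finset.range M, ((x j : ℂ) + y j / n + i)) * ((D * n : ℕ) : ℂ) ^ M := by
        rw [Finset.prod_congr rfl fun i _ => hef i, Finset.prod_mul_distrib, Finset.prod_const, Finset.card_range]
      rw [h1]
      ring
    have h1 : ((((D * n : ℕ) : ℤ) ^ (r * M) : ℤ) : ℂ) = ∏ _j : Fin r, ((D * n : ℕ) : ℂ) ^ M := by
      rw [Finset.prod_const, Finset.card_univ, Fintype.card_fin, ← pow_mul]
      push_cast
      rw [mul_comm M r]
    rw [h1, GF, ← Finset.prod_mul_distrib]
    push_cast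
    rw [← Finset.prod_mul_distrib]
    refine Finset.prod_congr rfl fun j _ => ?_
    have h2 := hGm j
    push_cast at h2
    rw [← h2]
    congr 2
    rw [div_eq_mul_inv]
    ring

/-- Let `x_j` and `y_j ≠ 0` be rational numbers such that for some rational number `w` the number of the `j` with `y_j > 0`
and `x_j + y_j w` an integer is different from the number of the `j` with `y_j < 0` and `x_j + y_j w` an integer. For all `m`,
`A`, `K` there is `Z` such that for every complex number `β` and every `N ≥ 1` at most `Z` integers `n` in `[N, N ^ K]` are such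
that `Γ(x_1 + y_1 / n) ⋯ Γ(x_r + y_r / n) = α β` with an algebraic number `α` of degree at most `m` and height at
most `n ^ A`. -/
theorem result {r : ℕ} (x y : Fin r → ℚ) (hy : ∀ j, y j ≠ 0) (w : ℚ)
    (hw : {j | 0 < y j ∧ ∃ z : ℤ, x j + y j * w = z}.ncard ≠ {j | y j < 0 ∧ ∃ z : ℤ, x j + y j * w = z}.ncard)
    (m : ℕ) (A K : ℝ) :
    ∃ Z : ℕ, ∀ (β : ℂ) (N : ℝ), 1 ≤ N →
      {n : ℕ | N ≤ n ∧ (n : ℝ) ≤ N ^ K ∧ ∃ α : ℂ, AlgLe m ((n : ℝ) ^ A) α ∧
        ∏ j, Complex.Gamma ((x j : ℂ) + y j / n) = α * β}.ncard ≤ Z := by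
  classical
  obtain ⟨M, C₀, c, hpos, hsh⟩ := shift_args x y hy
  set x' : Fin r → ℚ := fun j => x j + M with hx'
  have hx'0 : ∀ j, ∀ k : ℕ, x' j ≠ -k := by
    intro j k h
    have h1 := hpos j
    have h2 : (0 : ℚ) ≤ k := Nat.cast_nonneg k
    simp only [hx'] at h
    linarith
  have hcls : cls (w : ℂ) (Ld y) (RN x' y) ≠ cls (w : ℂ) (Ld y) (SN x' y) := by
    rw [cls_RN hy, cls_SN hy]
    intro h
    apply hw
    have e1 : ∀ j, (∃ z : ℤ, x' j + y j * w = z) ↔ ∃ z : ℤ, x j + y j * w = z := by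
      intro j
      constructor
      · rintro ⟨z, hz⟩
        refine ⟨z - M, ?_⟩
        simp only [hx'] at hz
        push_cast
        linear_combination hz
      · rintro ⟨z, hz⟩
        refine ⟨z + M, ?_⟩
        simp only [hx']
        push_cast
        linear_combination hz
    have e2 : {j | 0 < y j ∧ ∃ z : ℤ, x j + y j * w = z} =
        ((Finset.univ.filter fun j => 0 < y j ∧ ∃ z : ℤ, x' j + y j * w = z : Finset (Fin r)) : Set (Fin r)) := by
      ext j
      simp only [Set.mem_ofPred_eq, Finset.coe_filter, Finset.mem_univ, true_and, e1]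
    have e3 : {j | y j < 0 ∧ ∃ z : ℤ, x j + y j * w = z} =
        ((Finset.univ.filter fun j => y j < 0 ∧ ∃ z : ℤ, x' j + y j * w = z : Finset (Fin r)) : Set (Fin r)) := by
      ext j
      simp only [Set.mem_ofPred_eq, Finset.coe_filter, Finset.mem_univ, true_and, e1]
    rw [e2, e3, Set.ncard_coe_finset, Set.ncard_coe_finset]
    exact h
  obtain ⟨ρ, hρ, hρ'⟩ := near_zero (x := x') (y := y) hx'0
  set K' : ℝ := max K 1 with hK'
  have hK1 : 1 ≤ K' := le_max_right _ _
  have hKp : 0 < K' := by linarith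
  obtain ⟨B, C, T₀, hT₀, H⟩ := ballNF 1 (m + 1) m (fun _ : Unit => GF x' y)
    (fun _ => GF_an fun j k => hρ' 0 (by simpa using hρ) j k) (GF_locInd hy hx'0 w hcls) (|A| + c * m) (1 / K')
    (by positivity)
  set N₀ : ℝ := max (max T₀ (1 / ρ + 1)) (C₀ + 1) with hN₀
  refine ⟨C + (⌊N₀ ^ K'⌋₊ + 1), fun β N hN => ?_⟩
  set E : Set ℕ := {n : ℕ | N ≤ n ∧ (n : ℝ) ≤ N ^ K ∧ ∃ α : ℂ, AlgLe m ((n : ℝ) ^ A) α ∧
        ∏ j, Complex.Gamma ((x j : ℂ) + y j / n) = α * β} with hE
  have hNp : 0 < N := by linarith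
  have hNK : N ^ K ≤ N ^ K' := Real.rpow_le_rpow_of_exponent_le hN (le_max_left _ _)
  have hEsub : E ⊆ (Finset.range (⌊N ^ K'⌋₊ + 1) : Finset ℕ) := by
    intro q hq
    rw [Finset.mem_coe, Finset.mem_range]
    exact Nat.lt_succ_of_le (Nat.le_floor (hq.2.1.trans hNK))
  have hEf : E.Finite := (Finset.finite_toSet _).subset hEsub
  rcases lt_or_ge N N₀ with hsmall | hbig
  · have h1 : E.ncard ≤ ⌊N₀ ^ K'⌋₊ + 1 := by
      have h2 := Set.ncard_le_ncard hEsub (Finset.finite_toSet _)
      rw [Set.ncard_coe_finset, Finset.card_range] at h2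
      refine h2.trans (Nat.succ_le_succ (Nat.floor_le_floor ?_))
      exact Real.rpow_le_rpow hNp.le hsmall.le hKp.le
    omega
  have hNT₀ : T₀ ≤ N := (le_max_left _ _).trans ((le_max_left _ _).trans hbig)
  have hNρ : 1 / ρ + 1 ≤ N := (le_max_right _ _).trans ((le_max_left _ _).trans hbig)
  have hNC : (C₀ : ℝ) + 1 ≤ N := (le_max_right _ _).trans hbig
  set T : ℝ := N ^ K' with hT
  have hNT : N ≤ T := by
    calc N = N ^ (1 : ℝ) := (Real.rpow_one N).symm
      _ ≤ N ^ K' := Real.rpow_le_rpow_of_exponent_le hN hK1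
  have hT1 : 1 ≤ T := hN.trans hNT
  have hTp : 0 < T := by linarith
  have hTη : T ^ (-(1 / K')) = N⁻¹ := by
    rw [hT, ← Real.rpow_mul hNp.le]
    have : K' * -(1 / K') = -1 := by field_simp
    rw [this, Real.rpow_neg_one]
  suffices hc : E.ncard ≤ C by omega
  rw [Set.ncard_eq_toFinset_card _ hEf]
  have hinjq : Set.InjOn (fun q : ℕ => ((q : ℚ))⁻¹) (hEf.toFinset : Set ℕ) := by
    intro q _ q' _ hqq
    have := inv_injective hqq
    exact_mod_cast this
  rw [← Finset.card_image_of_injOn hinjq]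
  refine H ℚ (by simp) (algebraMap ℚ ℂ) (fun k : Fin (m + 1) => (β⁻¹) ^ (k : ℕ)) T (hNT₀.trans hNT) _ ?_
  intro z hz
  obtain ⟨n, hn, rfl⟩ := Finset.mem_image.1 hz
  obtain ⟨h1, h2, α, ⟨p, hp0, hpm, hpH, hpα⟩, hprod⟩ := hEf.mem_toFinset.1 hn
  have hn1 : (1 : ℝ) ≤ n := hN.trans h1
  have hnp : (0 : ℝ) < n := by linarith
  have hn1' : 1 ≤ n := by exact_mod_cast hn1
  have hnC : C₀ < n := by
    have : (C₀ : ℝ) < n := by linarith
    exact_mod_cast this
  have hnT : (n : ℝ) ≤ T := h2.trans hNK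
  obtain ⟨U, V, hU, hV, hUn, hVn, hUV⟩ := hsh n hnC
  have hUc : (U : ℂ) ≠ 0 := by exact_mod_cast hU
  have hVc : (V : ℂ) ≠ 0 := by exact_mod_cast hV
  have hnorm : ‖((n : ℂ))⁻¹‖ < ρ := by
    rw [norm_inv, Complex.norm_natCast]
    have h3 : 1 / ρ < n := by linarith
    rw [div_lt_iff₀ hρ] at h3
    rw [inv_lt_iff_one_lt_mul₀ hnp]
    linarith
  have hG0 : GF x' y ((n : ℂ))⁻¹ ≠ 0 := GF_ne fun j k => hρ' _ hnorm j k
  have hβ : β ≠ 0 := by
    rintro rfl
    rw [mul_zero] at hprod
    rw [hprod, zero_mul] at hUV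
    rcases mul_eq_zero.1 hUV with h3 | h3
    · exact hG0 h3
    · exact hVc h3
  have hιn : (algebraMap ℚ ℂ) ((n : ℚ))⁻¹ = ((n : ℂ))⁻¹ := by rw [map_inv₀, map_natCast]
  set cc : ℕ → ℤ := fun k => p.coeff k * (V ^ k * U ^ (m - k)) with hcc
  refine ⟨?_, ?_, RP m (fun k => (β⁻¹) ^ k * (cc k : ℂ)), RP_degree m _, ?_, ?_⟩
  · rw [hιn, norm_inv, Complex.norm_natCast, hTη]
    exact inv_anti₀ hNp h1
  · refine ⟨1, ((n : ℕ) : 𝓞 ℚ), ?_, ?_, ?_, ?_⟩
    · have : n ≠ 0 := by omega
      exact_mod_cast this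
    · refine Y120.house_le ℚ hTp.le fun φ => ?_
      have e1 : (((1 : 𝓞 ℚ)) : ℚ) = 1 := by push_cast; rfl
      rw [e1, map_one, norm_one]
      exact hT1
    · refine Y120.house_le ℚ hTp.le fun φ => ?_
      have e1 : ((((n : ℕ) : 𝓞 ℚ)) : ℚ) = ((n : ℕ) : ℚ) := by push_cast; rfl
      rw [e1, map_natCast, Complex.norm_natCast]
      exact hnT
    · have e1 : (((1 : 𝓞 ℚ)) : ℚ) = 1 := by push_cast; rfl
      have e2 : ((((n : ℕ) : 𝓞 ℚ)) : ℚ) = ((n : ℕ) : ℚ) := by push_cast; rfl
      rw [e1, e2, one_div]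
  · intro s
    rw [RP_coeff]
    by_cases hs : s () < m + 1
    · rw [if_pos hs]
      refine ⟨fun i => if i = ⟨s (), hs⟩ then ((cc (s ()) : ℤ) : 𝓞 ℚ) else 0, fun i φ => ?_, ?_⟩
      · by_cases hi : i = ⟨s (), hs⟩
        · simp only [if_pos hi]
          have e1 : ((((cc (s ()) : ℤ) : 𝓞 ℚ)) : ℚ) = ((cc (s ()) : ℤ) : ℚ) := by push_cast; rfl
          rw [e1, map_intCast, Complex.norm_intCast]
          simp only [hcc]
          push_cast
          rw [abs_mul, abs_mul, abs_pow, abs_pow]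
          have hk : s () ≤ m := by omega
          calc |(p.coeff (s ()) : ℝ)| * (|(V : ℝ)| ^ s () * |(U : ℝ)| ^ (m - s ()))
              ≤ (n : ℝ) ^ A * (((n : ℝ) ^ c) ^ s () * ((n : ℝ) ^ c) ^ (m - s ())) := by
                refine mul_le_mul (hpH _) ?_ (by positivity) (by positivity)
                exact mul_le_mul (pow_le_pow_left₀ (abs_nonneg _) hVn _) (pow_le_pow_left₀ (abs_nonneg _) hUn _)
                  (by positivity) (by positivity)
            _ = (n : ℝ) ^ (A + c * m) := by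
                rw [← pow_add, Nat.add_sub_cancel' hk, ← pow_mul, Real.rpow_add hnp, ← Real.rpow_natCast]
                push_cast
                rfl
            _ ≤ (n : ℝ) ^ (|A| + c * m) := Real.rpow_le_rpow_of_exponent_le hn1 (by linarith [le_abs_self A])
            _ ≤ T ^ (|A| + c * m) := Real.rpow_le_rpow hnp.le hnT (by positivity)
        · simp only [if_neg hi, map_zero, norm_zero]
          positivity
      · rw [Finset.sum_eq_single ⟨s (), hs⟩]
        · have e1 : ((((cc (s ()) : ℤ) : 𝓞 ℚ)) : ℚ) = ((cc (s ()) : ℤ) : ℚ) := by push_cast; rfl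
          simp only [if_true]
          rw [e1]
          congr 1
        · intro b _ hb
          simp only [if_neg hb]
          simp
        · intro h
          exact absurd (Finset.mem_univ _) h
    · rw [if_neg hs]
      refine ⟨fun _ => 0, fun i φ => ?_, ?_⟩
      · simp only [map_zero, norm_zero]
        positivity
      · simp
  · obtain ⟨k, hk⟩ := Polynomial.support_nonempty.2 hp0
    have hkm : k ≤ m := (Polynomial.le_natDegree_of_mem_supp k hk).trans hpm
    refine ⟨Finsupp.single () k, ?_, ?_⟩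
    · rw [RP_coeff]
      have h3 : (Finsupp.single () k : Unit →₀ ℕ) () = k := by simp
      rw [h3, if_pos (by omega)]
      have h4 : cc k ≠ 0 := by
        simp only [hcc]
        exact mul_ne_zero (Polynomial.mem_support_iff.1 hk) (mul_ne_zero (pow_ne_zero _ hV) (pow_ne_zero _ hU))
      exact mul_ne_zero (pow_ne_zero _ (inv_ne_zero hβ)) (by exact_mod_cast h4)
    · have h3 : MvPolynomial.aeval (fun _ : Unit => GF x' y ((algebraMap ℚ ℂ) ((n : ℚ))⁻¹))
          (RP m (fun k => (β⁻¹) ^ k * (cc k : ℂ))) = 0 := by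
        rw [RP_eval, hιn]
        have h4 : GF x' y ((n : ℂ))⁻¹ = α * β * U / V := by
          rw [eq_div_iff hVc, hUV, hprod]
        simp only [h4]
        have h5 : ∀ k ∈ Finset.range (m + 1), (β⁻¹) ^ k * (cc k : ℂ) * (α * β * U / V) ^ k =
            (U : ℂ) ^ m * ((p.coeff k : ℂ) * α ^ k) := by
          intro k hk
          have hkm : k ≤ m := Nat.lt_succ_iff.1 (Finset.mem_range.1 hk)
          simp only [hcc]
          push_cast
          have h6 : (U : ℂ) ^ m = U ^ k * U ^ (m - k) := by rw [← pow_add, Nat.add_sub_cancel' hkm]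
          rw [h6, div_pow, mul_pow, mul_pow, inv_pow]
          field_simp
        rw [Finset.sum_congr rfl h5, ← Finset.mul_sum]
        have h6 : ∑ k ∈ Finset.range (m + 1), (p.coeff k : ℂ) * α ^ k = 0 := by
          rw [← hpα, Polynomial.aeval_eq_sum_range' (Nat.lt_succ_of_le hpm)]
          refine Finset.sum_congr rfl fun k _ => ?_
          rw [zsmul_eq_mul]
        rw [h6, mul_zero]
      rw [h3, norm_zero]
      positivity

end Pool.Agent.Results.MP_c2409d_nt.OneParameter
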