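import Pool.Agent.R728.RC.Rho
import Pool.Agent.Results.MP_c2409d_nt.RationalMultiples

/-!
# Products of Gamma values in random residue classes: a doubly exponential range

Let `𝓜` be a set of moduli with `∑ m ^ (-σ) < ∞` and let `X m` be random elements of any sets
`Y m`, each value of which has probability at most `K m ^ (-θ)`, `θ > σ`; no independence is
assumed. Let `φ m` be any maps from `ℕ` to `Y m`, for instance the residue modulo `m`. Almost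
surely the following holds for all `r ≥ 1`, all rational `a_j > 0`, `c_j ≥ 1` (`j < r`), all
rational `s`, all `A` and all `ρ < θ - σ`: there are only finitely many pairs of `m` in `𝓜` and an
integer `n ≤ exp (exp (m ^ ρ))` with `φ m n = X m` such that `Γ(a_1 + c_1/n) ⋯ Γ(a_r + c_r/n)` is a
rational multiple of `π ^ s` with a denominator of at most `n ^ A`.
-/

set_option autoImplicit false

namespace Pool.Agent.Results.MP_c2409d_nt.RandomResidues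

open MeasureTheory Pool.Agent.R728.RC

/-- The positive integers `n` such that `Γ(a_1 + c_1 / n) ⋯ Γ(a_r + c_r / n) = (u / v) π ^ s` with
integers `u`, `v`, `1 ≤ v ≤ n ^ A`. -/
def Bad {r : ℕ} (a c : Fin r → ℚ) (s : ℚ) (A : ℝ) : Set ℕ :=
  {n | 1 ≤ n ∧ ∃ (u : ℤ) (v : ℕ), 1 ≤ v ∧ (v : ℝ) ≤ (n : ℝ) ^ A ∧
    ∏ j, Real.Gamma ((a j : ℝ) + (c j : ℝ) / n) = u / v * Real.pi ^ (s : ℝ)}

lemma bad_mono {r : ℕ} (a c : Fin r → ℚ) (s : ℚ) {A A' : ℝ} (h : A ≤ A') :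
    Bad a c s A ⊆ Bad a c s A' := by
  rintro n ⟨h1, u, v, h2, h3, h4⟩
  exact ⟨h1, u, v, h2, h3.trans (Real.rpow_le_rpow_of_exponent_le (by exact_mod_cast h1) h), h4⟩

lemma count_bad {r : ℕ} (hr : 0 < r) (a c : Fin r → ℚ) (ha : ∀ j, 0 < a j) (hc : ∀ j, 1 ≤ c j)
    (s : ℚ) {A : ℝ} (hA : 0 ≤ A) : ∀ ε : ℝ, 0 < ε → ∃ C : ℝ, ∀ B : ℝ, 1 ≤ B →
    {n : ℕ | n ∈ Bad a c s A ∧ max 1 (Real.log (Real.log n)) ≤ B}.Finite ∧
    (({n : ℕ | n ∈ Bad a c s A ∧ max 1 (Real.log (Real.log n)) ≤ B}.ncard : ℕ) : ℝ) ≤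
      C * B ^ (1 + ε) := by
  intro ε hε
  obtain ⟨Z, hZ⟩ := (RationalMultiples.result hr (fun j => (a j : ℝ)) (fun j => (c j : ℝ))
    (fun j => by exact_mod_cast ha j) (fun j => by exact_mod_cast hc j) (s : ℝ) A hA).2
  refine ⟨2 + 4 * Z, fun B hB => ?_⟩
  have hl2 : 0 < Real.log 2 := Real.log_pos (by norm_num)
  set J : ℕ := ⌊(B + 1) / Real.log 2⌋₊ + 1 with hJ
  have hq0 : 0 ≤ (B + 1) / Real.log 2 := div_nonneg (by linarith) hl2.le
  have hJ1 : (B + 1) / Real.log 2 < J := by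
    rw [hJ]
    push_cast
    exact Nat.lt_floor_add_one _
  have hJ2 : (J : ℝ) ≤ 4 * B := by
    rw [hJ]
    push_cast
    have h1 := Nat.floor_le hq0
    have h2 : (B + 1) / Real.log 2 ≤ 3 * B := by
      rw [div_le_iff₀ hl2]
      nlinarith [Real.log_two_gt_d9]
    linarith
  have hpow : Real.exp B ≤ (2 : ℝ) ^ J * Real.log 2 := by
    have h1 : (2 : ℝ) ^ J = Real.exp (J * Real.log 2) := by
      rw [Real.exp_nat_mul, Real.exp_log (by norm_num)]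
    have h2 : B + 1 ≤ J * Real.log 2 := by
      rw [div_lt_iff₀ hl2] at hJ1
      exact hJ1.le
    have h3 : Real.exp (B + 1) ≤ (2 : ℝ) ^ J := by
      rw [h1]
      exact Real.exp_le_exp.2 h2
    rw [Real.exp_add] at h3
    have h4 : (2.7 : ℝ) ≤ Real.exp 1 := by linarith [Real.exp_one_gt_d9]
    have h5 := Real.exp_pos B
    have h6 := Real.log_two_gt_d9
    calc Real.exp B ≤ (Real.exp B * 2.7) * Real.log 2 := by nlinarith
      _ ≤ (Real.exp B * Real.exp 1) * Real.log 2 := by gcongr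
      _ ≤ (2 : ℝ) ^ J * Real.log 2 := by gcongr
  have hbd : ∀ n ∈ {n : ℕ | n ∈ Bad a c s A ∧ max 1 (Real.log (Real.log n)) ≤ B},
      n ≤ 2 ^ (2 ^ J) := by
    rintro n ⟨⟨hn1, -⟩, hn2⟩
    rcases Nat.lt_or_ge n 2 with h | h
    · have h1 : 1 ≤ 2 ^ (2 ^ J) := Nat.one_le_two_pow
      omega
    · have hn0 : (0 : ℝ) < (n : ℝ) := by exact_mod_cast (by omega : 0 < n)
      have hlog : 0 < Real.log (n : ℝ) := Real.log_pos (by exact_mod_cast h)
      have h1 : Real.log (Real.log (n : ℝ)) ≤ B := (le_max_right _ _).trans hn2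
      rw [Real.log_le_iff_le_exp hlog] at h1
      have h2 : (n : ℝ) ≤ Real.exp ((2 : ℝ) ^ J * Real.log 2) := by
        rw [← Real.log_le_iff_le_exp hn0]
        exact h1.trans hpow
      have h3 : Real.exp ((2 : ℝ) ^ J * Real.log 2) = ((2 ^ (2 ^ J) : ℕ) : ℝ) := by
        have e1 : ((2 : ℝ) ^ J * Real.log 2) = ((2 ^ J : ℕ) : ℝ) * Real.log 2 := by push_cast; ring
        rw [e1, Real.exp_nat_mul, Real.exp_log (by norm_num)]
        push_cast
        rfl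
      rw [h3] at h2
      exact_mod_cast h2
  have hfin : {n : ℕ | n ∈ Bad a c s A ∧ max 1 (Real.log (Real.log n)) ≤ B}.Finite :=
    (Set.finite_Iic (2 ^ (2 ^ J))).subset hbd
  refine ⟨hfin, ?_⟩
  have hsub : {n : ℕ | n ∈ Bad a c s A ∧ max 1 (Real.log (Real.log n)) ≤ B} ⊆
      {n : ℕ | n ∈ RationalMultiples.Bad (fun j => (a j : ℝ)) (fun j => (c j : ℝ)) (s : ℝ) A ∧
        n ≤ 2 ^ (2 ^ J)} := fun n hn => ⟨hn.1, hbd n hn⟩
  have h1 : ((({n : ℕ | n ∈ Bad a c s A ∧ max 1 (Real.log (Real.log n)) ≤ B}.ncard : ℕ)) : ℕ∞) ≤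
      ((2 + Z * J : ℕ) : ℕ∞) := by
    rw [hfin.cast_ncard_eq]
    refine (Set.encard_le_encard hsub).trans ((hZ J).trans (le_of_eq ?_))
    push_cast
    rfl
  have h2 : {n : ℕ | n ∈ Bad a c s A ∧ max 1 (Real.log (Real.log n)) ≤ B}.ncard ≤ 2 + Z * J := by
    exact_mod_cast h1
  calc (({n : ℕ | n ∈ Bad a c s A ∧ max 1 (Real.log (Real.log n)) ≤ B}.ncard : ℕ) : ℝ)
      ≤ ((2 + Z * J : ℕ) : ℝ) := by exact_mod_cast h2
    _ = 2 + Z * J := by push_cast; ring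
    _ ≤ 2 * B + Z * (4 * B) := by gcongr; linarith
    _ = (2 + 4 * Z) * B := by ring
    _ ≤ (2 + 4 * Z) * B ^ (1 + ε) := by
        apply mul_le_mul_of_nonneg_left _ (by positivity)
        calc B = B ^ (1 : ℝ) := (Real.rpow_one B).symm
          _ ≤ B ^ (1 + ε) := Real.rpow_le_rpow_of_exponent_le hB (by linarith)

lemma loglog_le {n : ℕ} {x : ℝ} (hx : 0 ≤ x) (h : (n : ℝ) ≤ Real.exp (Real.exp x)) :
    Real.log (Real.log n) ≤ x := by
  rcases Nat.lt_or_ge n 2 with h1 | h1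
  · have : Real.log (n : ℝ) = 0 := by
      interval_cases n <;> simp
    rw [this, Real.log_zero]
    exact hx
  · have hn0 : (0 : ℝ) < (n : ℝ) := by exact_mod_cast (by omega : 0 < n)
    have hlog : 0 < Real.log (n : ℝ) := Real.log_pos (by exact_mod_cast h1)
    rw [Real.log_le_iff_le_exp hlog, Real.log_le_iff_le_exp hn0]
    exact h

/-- **Theorem.** Let `𝓜` be a set of positive integers with a convergent sum of the `m ^ (-σ)`,
let `X m` be random elements of arbitrary sets `Y m`, each value of which has probability at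
most `K m ^ (-θ)`, where `σ < θ` (no independence is assumed), and let `φ m` be any maps from `ℕ`
to `Y m`. Almost surely, for all `r ≥ 1`, all rational `a_j > 0` and `c_j ≥ 1`, all rational `s`,
all real `A` and all `ρ < θ - σ` there are only finitely many pairs of `m` in `𝓜` and an integer
`n ≤ exp (exp (m ^ ρ))` with `φ m n = X m` such that `Γ(a_1 + c_1 / n) ⋯ Γ(a_r + c_r / n)` is
`(u / v) π ^ s` with integers `u`, `v`, `1 ≤ v ≤ n ^ A`. -/
theorem result (𝓜 : Set ℕ) (σ θ K : ℝ) (Ω : Type) [MeasurableSpace Ω] (P : Measure Ω)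
    (Y : ℕ → Type) (X : ∀ m : ℕ, Ω → Y m) (φ : ∀ m : ℕ, ℕ → Y m)
    (h0 : ∀ m ∈ 𝓜, 0 < m) (hs : σ < θ)
    (hsum : Summable fun m : 𝓜 => ((m : ℕ) : ℝ) ^ (-σ))
    (hX : ∀ m ∈ 𝓜, ∀ y : Y m, P {ω | X m ω = y} ≤ ENNReal.ofReal (K * (m : ℝ) ^ (-θ))) :
    ∀ᵐ ω ∂P, ∀ (r : ℕ) (a c : Fin r → ℚ) (s : ℚ) (A ρ : ℝ), 0 < r → (∀ j, 0 < a j) →
      (∀ j, 1 ≤ c j) → ρ < θ - σ →
      {x : ℕ × ℕ | x.1 ∈ 𝓜 ∧ x.2 ∈ Bad a c s A ∧
        (x.2 : ℝ) ≤ Real.exp (Real.exp ((x.1 : ℝ) ^ ρ)) ∧ φ x.1 x.2 = X x.1 ω}.Finite := by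
  have hpos : 0 < θ - σ := by linarith
  have hall : ∀ᵐ ω ∂P, ∀ (r : ℕ) (a : Fin r → ℚ) (c : Fin r → ℚ) (s : ℚ) (A : ℕ) (q : ℚ),
      (0 < r ∧ (∀ j, 0 < a j) ∧ (∀ j, 1 ≤ c j) ∧ (0 : ℝ) < q ∧ (q : ℝ) < θ - σ) →
      {x : ℕ × ℕ | x.1 ∈ 𝓜 ∧ x.2 ∈ Bad a c s A ∧
        Real.log (Real.log x.2) ≤ (x.1 : ℝ) ^ (q : ℝ) ∧ φ x.1 x.2 = X x.1 ω}.Finite := by
    rw [ae_all_iff]; intro r
    rw [ae_all_iff]; intro a
    rw [ae_all_iff]; intro c
    rw [ae_all_iff]; intro s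
    rw [ae_all_iff]; intro A
    rw [ae_all_iff]; intro q
    by_cases h1 : 0 < r ∧ (∀ j, 0 < a j) ∧ (∀ j, 1 ≤ c j) ∧ (0 : ℝ) < q ∧ (q : ℝ) < θ - σ
    · obtain ⟨hr, ha, hc, hq, hq2⟩ := h1
      have := one_rho (L := fun n : ℕ => Real.log (Real.log n)) (Bd := Bad a c s A)
        (φ := φ) (κ := 1) zero_le_one (count_bad hr a c ha hc s (Nat.cast_nonneg A))
        h0 hs hsum hX hq (by rw [one_mul]; exact hq2)
      filter_upwards [this] with ω hω _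
      exact hω
    · exact Filter.Eventually.of_forall fun ω h2 => absurd h2 h1
  filter_upwards [hall] with ω hω r a c s A ρ hr ha hc hρ
  obtain ⟨q, hq1, hq2⟩ := exists_rat_btwn (max_lt hρ hpos)
  have hq3 : (0 : ℝ) < q := lt_of_le_of_lt (le_max_right _ _) hq1
  obtain ⟨A', hA'⟩ := exists_nat_ge A
  refine (hω r a c s A' q ⟨hr, ha, hc, hq3, hq2⟩).subset ?_
  rintro ⟨m, n⟩ ⟨h1, h2, h3, h4⟩
  refine ⟨h1, bad_mono a c s hA' h2, ?_, h4⟩
  have hm1 : (1 : ℝ) ≤ (m : ℝ) := by exact_mod_cast h0 m h1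
  exact (loglog_le (by positivity) h3).trans
    (Real.rpow_le_rpow_of_exponent_le hm1 ((le_max_left ρ 0).trans hq1.le))

end Pool.Agent.Results.MP_c2409d_nt.RandomResidues
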